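import Pool.Agent.W128.VA.Stm

/-! Project VA: products of the generators. -/

set_option autoImplicit false

namespace Pool.Agent.W585.VA.Ope

open Pool.Agent.W128.VA

theorem hR_pos (m k : ℤ) (hm : 0 < m) (p : R0) :
    hR m k p = (2 * (m : ℂ)) • MvPolynomial.pderiv (m - 1).toNat p := by
  unfold hR
  rw [if_neg (by omega), if_neg (by omega)]
  rfl

theorem hR_zero (k : ℤ) (p : R0) : hR 0 k p = (2 * (k : ℂ)) • p := by
  unfold hR
  rw [if_neg (by omega), if_pos rfl]
  rfl

theorem hR_neg1 (k : ℤ) (p : R0) : hR (-1) k p = MvPolynomial.X 0 * p := by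
  unfold hR
  rw [if_pos (by omega)]
  rfl

theorem D_one : D (1 : R0) = 0 := by
  unfold D
  exact Derivation.map_one_eq_zero _

theorem P11 : P 1 1 = MvPolynomial.X 0 := by
  rw [show (1 : ℕ) = 0 + 1 from rfl, P_succ]
  simp [P_zero]

theorem main : S_EOPC → S_OPE := by
  intro hE
  have h1 : ∀ s : ℤ, eop 1 s 1 = PZ 1 s := fun s => (hE 1 s).2.2
  refine ⟨⟨?_, ?_, ?_⟩, ⟨?_, ?_⟩, ⟨?_, ?_⟩, ⟨?_, ?_, ?_⟩, ?_, ?_, ?_, ?_⟩
  · rw [hop_single, hR_zero]
    simp
  · rw [hop_single, hR_pos _ _ (by omega)]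
    have e1 : ((1 : ℤ) - 1).toNat = 0 := rfl
    rw [e1, MvPolynomial.pderiv_X_self]
    unfold vac1
    rw [Finsupp.smul_single]
    simp
  · intro j hj
    rw [hop_single, hR_pos _ _ (by omega), MvPolynomial.pderiv_X_of_ne (by omega)]
    simp
  · rw [hop_single, hR_zero, Finsupp.smul_single]
    simp
  · intro j hj
    rw [hop_single, hR_pos _ _ (by omega), Derivation.map_one_eq_zero]
    simp
  · rw [hop_single, hR_zero, Finsupp.smul_single]
    simp
  · intro j hj
    rw [hop_single, hR_pos _ _ (by omega), Derivation.map_one_eq_zero]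
    simp
  · rw [eV_single, h1]
    have e1 : (-0 - 1 - 2 * 1 * (-1) : ℤ) = 1 := by norm_num
    rw [e1]
    have e2 : PZ 1 1 = MvPolynomial.X 0 := by
      unfold PZ
      rw [if_pos (by omega)]
      exact P11
    rw [e2]
    rfl
  · rw [eV_single, h1]
    have e1 : (-1 - 1 - 2 * 1 * (-1) : ℤ) = 0 := by norm_num
    rw [e1]
    have e2 : PZ 1 0 = 1 := by
      unfold PZ
      rw [if_pos (by omega)]
      exact P_zero 1
    rw [e2]
    rfl
  · intro j hj
    rw [eV_single, h1]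
    have e2 : PZ 1 (-j - 1 - 2 * 1 * (-1)) = 0 := by
      unfold PZ
      rw [if_neg (by omega)]
    rw [e2]
    simp
  · rw [T0_single, hop_single, hR_neg1, D_one]
    simp
  · rw [T0_single, hop_single, hR_neg1, D_one]
    simp
  · rw [eV_single, h1]
    have e2 : PZ 1 (-(-1) - 1 - 2 * 1 * 1) = 0 := by
      unfold PZ
      rw [if_neg (by omega)]
    rw [e2]
    simp
  · rw [eV_single]
    have e1 : (-0 - 1 - 2 * 1 * 0 : ℤ) = -1 := by norm_num
    have e3 : (MvPolynomial.X 0 : R0) = MvPolynomial.X 0 * 1 := (mul_one _).symm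
    rw [e1, e3, (hE 1 (-1)).1 0 1, h1, h1]
    have e2 : PZ 1 (-1) = 0 := by
      unfold PZ
      rw [if_neg (by omega)]
    have e4 : PZ 1 (-1 + (((0 : ℕ) : ℤ) + 1)) = 1 := by
      unfold PZ
      rw [if_pos (by norm_num)]
      exact P_zero 1
    rw [e2, e4, Finsupp.smul_single]
    simp

end Pool.Agent.W585.VA.Ope
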